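import Pool.Agent.Lib.helper15.SemiZ

set_option autoImplicit false

open Pool.Agent.Lib.helper15 SemiZ

namespace Pool.Agent.Results.MP_9d0418_gt.Counter

theorem result : ∃ (G : Type) (_ : Group G),
    FiniteDoubleCentralizers G ∧ ¬SigmaDiscrete G Set.univ := by
  obtain ⟨G, _, I, _, x, hx, h1, h2, -⟩ := Fdc.exists_group
  exact ⟨G, inferInstance, h1, not_sigma hx h2 (by simp)⟩

end Pool.Agent.Results.MP_9d0418_gt.Counter
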